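import Pool.Agent.helper36.PP.SpecA
import Pool.Agent.helper74.MP.MD

set_option autoImplicit false

open Complex Metric Set Filter Topology MeasureTheory MPS

noncomputable section

namespace PPS

section
variable {k : ℕ} [NeZero k]

theorem MD_ofReal (S : Multiset ℂ) (p q : ℂ → ℝ) (hp : ∀ y, 0 ≤ p y) (hq : ∀ y, 0 ≤ q y) :
    0 ≤ (S.map fun y => p y / q y).sum ∧
    ENNReal.ofReal (S.map fun y => p y / q y).sum ≤
      (S.map fun y => ENNReal.ofReal (p y) / ENNReal.ofReal (q y)).sum := by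
  induction S using Multiset.induction_on with
  | empty => simp
  | cons a S ih =>
    rw [Multiset.map_cons, Multiset.sum_cons, Multiset.map_cons, Multiset.sum_cons]
    have h0 : 0 ≤ p a / q a := div_nonneg (hp a) (hq a)
    refine ⟨add_nonneg h0 ih.1, ?_⟩
    rw [ENNReal.ofReal_add h0 ih.1]
    refine add_le_add ?_ ih.2
    rcases (hq a).lt_or_eq with h | h
    · rw [ENNReal.ofReal_div_of_pos h]
    · rw [← h, div_zero, ENNReal.ofReal_zero]
      exact zero_le

/-- the pointwise inequality -/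
theorem MD_point {f : Polynomial ℂ} {b g : ZMod k → ℂ} (z : ℂ) (hD : 0 ≤ Df f b g z) :
    ENNReal.ofReal (Df f b g z) + ENNReal.ofReal ‖BB b g z‖ ≤
      ((pre f z).map fun y => ENNReal.ofReal ‖BB b g y‖ / ENNReal.ofReal (‖fd f y‖ ^ 2)).sum +
        ENNReal.ofReal ‖er f b g z‖ := by
  obtain ⟨h1, h2⟩ := MD_ofReal (pre f z) (fun y => ‖BB b g y‖) (fun y => ‖fd f y‖ ^ 2)
    (fun y => norm_nonneg _) (fun y => by positivity)
  rw [← ENNReal.ofReal_add hD (norm_nonneg _)]
  refine le_trans ?_ (add_le_add_left h2 _)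
  rw [← ENNReal.ofReal_add h1 (norm_nonneg _)]
  apply ENNReal.ofReal_le_ofReal
  have h3 : ‖BB b g z‖ ≤ ‖TT f (BB b g) z‖ + ‖er f b g z‖ := by
    calc ‖BB b g z‖ = ‖TT f (BB b g) z + er f b g z‖ := by
          unfold er
          congr 1; ring
      _ ≤ _ := norm_add_le _ _
  unfold Df
  linarith

/-- `f` maps small discs around `b i` into small discs around `b (i+1)`. -/
theorem MD_der {f : Polynomial ℂ} {b : ZMod k → ℂ} (hc : IsCyc f b) {η : ℝ}
    (hη : 0 < η) : ∀ᶠ t in 𝓝[>] (0 : ℝ), ∀ i : ZMod k, ∀ y : ℂ, ‖y - b i‖ < t →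
      ‖f.eval y - b (i + 1)‖ ≤ (1 + η) * ‖fd f (b i)‖ * ‖y - b i‖ := by
  rw [eventually_all]
  intro i
  have hf0 := hc.ne0 i
  have hd : HasDerivAt (fun y : ℂ => f.eval y) (fd f (b i)) (b i) := f.hasDerivAt (b i)
  have hpos : 0 < η * ‖fd f (b i)‖ := mul_pos hη (norm_pos_iff.mpr hf0)
  have h1 := (hasDerivAt_iff_isLittleO.mp hd).bound hpos
  obtain ⟨δ, hδ, hδ2⟩ := Metric.eventually_nhds_iff_ball.mp h1
  have hev : ∀ᶠ t in 𝓝[>] (0 : ℝ), t < δ := nhdsWithin_le_nhds (gt_mem_nhds hδ)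
  filter_upwards [hev] with t ht y hy
  have h2 := hδ2 y (by rw [mem_ball, dist_eq_norm]; exact hy.trans ht)
  rw [smul_eq_mul, hc.step i] at h2
  calc ‖f.eval y - b (i + 1)‖
      = ‖(f.eval y - b (i + 1) - (y - b i) * fd f (b i)) + (y - b i) * fd f (b i)‖ := by
        congr 1; ring
    _ ≤ ‖f.eval y - b (i + 1) - (y - b i) * fd f (b i)‖ + ‖(y - b i) * fd f (b i)‖ :=
        norm_add_le _ _
    _ ≤ η * ‖fd f (b i)‖ * ‖y - b i‖ + ‖y - b i‖ * ‖fd f (b i)‖ := by
        rw [norm_mul]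
        gcongr
    _ = _ := by ring

/-- the inequality outside of small discs. -/
theorem MD_core (hMI0 : MPS.MI_stmt) (hMI : MI_stmt) (hMCV : MCV_stmt)
    {f : Polynomial ℂ} {b g : ZMod k → ℂ} {R : ℝ} (hn : 1 ≤ f.natDegree) (hc : IsCyc f b)
    (hinv : ∀ y : ℂ, ‖f.eval y‖ < R → ‖y‖ < R) (hint : IntegrableOn (er f b g) (ball 0 R))
    (hrho : 1 < ‖rho f b‖) {η C r t : ℝ} (hη : 0 < η) (hC : 0 ≤ C) (hr : 0 < r)
    (hrt : r ≤ t) (hst : ∀ i, r / ((1 + η) * ‖fd f (b i)‖) ≤ t)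
    (P1 : ∀ i : ZMod k, ∀ z : ℂ, z ≠ b i → ‖z - b i‖ < t →
      |‖BB b g z‖ - 1 / ‖z - b i‖ ^ 2| ≤ C / ‖z - b i‖)
    (P2 : ∀ i j : ZMod k, i ≠ j → Disjoint (ball (b i) t) (ball (b j) t))
    (P2' : ∀ i : ZMod k, ball (b i) t ⊆ ball 0 R)
    (P3 : ∀ i : ZMod k, ∀ y : ℂ, ‖y - b i‖ < t →
      ‖f.eval y - b (i + 1)‖ ≤ (1 + η) * ‖fd f (b i)‖ * ‖y - b i‖) :
    ∫⁻ z in ball (0 : ℂ) R \ ⋃ i, ball (b i) r, ENNReal.ofReal (Df f b g z) ≤
      ENNReal.ofReal (2 * Real.pi * (Real.log ‖rho f b‖ + k * Real.log (1 + η)) +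
        4 * Real.pi * k * C * t + ∫ z in ball (0 : ℂ) R, ‖er f b g z‖) := by
  classical
  obtain ⟨hBm, _, hem, hDm, hD0, _⟩ := hMI k f b g hn
  have ht : 0 < t := hr.trans_le hrt
  set s : ZMod k → ℝ := fun i => r / ((1 + η) * ‖fd f (b i)‖) with hs
  have hfpos : ∀ i, 0 < ‖fd f (b i)‖ := fun i => norm_pos_iff.mpr (hc.ne0 i)
  have hs0 : ∀ i, 0 < s i := fun i => by
    have := hfpos i
    simp only [hs]
    positivity
  set K := ball (0 : ℂ) R \ ⋃ i, ball (b i) r with hK
  set L := ball (0 : ℂ) R \ ⋃ i, ball (b i) (s i) with hL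
  set W := ball (0 : ℂ) R \ ⋃ i, ball (b i) t with hW
  set F : ℂ → ENNReal := fun z => ENNReal.ofReal ‖BB b g z‖ with hF
  have hFm : Measurable F := hBm.norm.ennreal_ofReal
  have hKm : MeasurableSet K :=
    measurableSet_ball.diff (MeasurableSet.iUnion fun i => measurableSet_ball)
  have hLm : MeasurableSet L :=
    measurableSet_ball.diff (MeasurableSet.iUnion fun i => measurableSet_ball)
  set E := ENNReal.ofReal (∫ z in ball (0 : ℂ) R, ‖er f b g z‖) with hE
  have hEeq : ∫⁻ z in ball (0 : ℂ) R, ENNReal.ofReal ‖er f b g z‖ = E :=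
    (ofReal_integral_eq_lintegral_ofReal hint.norm
      (Eventually.of_forall fun z => norm_nonneg _)).symm
  -- preimage
  have hpre : {y : ℂ | f.eval y ∈ K} ⊆ L := by
    intro y hy
    rw [mem_ofPred_eq, hK, Set.mem_sdiff, mem_ball, dist_zero_right] at hy
    obtain ⟨hy1, hy2⟩ := hy
    rw [hL, Set.mem_sdiff, mem_ball, dist_zero_right]
    refine ⟨hinv y hy1, ?_⟩
    intro h
    rw [mem_iUnion] at h
    obtain ⟨i, hi⟩ := h
    rw [mem_ball, dist_eq_norm] at hi
    apply hy2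
    rw [mem_iUnion]
    refine ⟨i + 1, ?_⟩
    rw [mem_ball, dist_eq_norm]
    have h1 := P3 i y (hi.trans_le (hst i))
    have h2 : (1 + η) * ‖fd f (b i)‖ * ‖y - b i‖ < (1 + η) * ‖fd f (b i)‖ * s i := by
      have := hfpos i
      gcongr
    have h3 : (1 + η) * ‖fd f (b i)‖ * s i = r := by
      have := (hfpos i).ne'
      simp only [hs]
      field_simp
    linarith
  -- first inequality
  have hX : (∫⁻ z in K, ENNReal.ofReal (Df f b g z)) + ∫⁻ z in K, F z ≤
      (∫⁻ z in L, F z) + E := by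
    rw [← lintegral_add_right _ hFm]
    have h1 : ∫⁻ z in K, (ENNReal.ofReal (Df f b g z) + F z) ≤
        ∫⁻ z in K, (((pre f z).map fun y => F y / ENNReal.ofReal (‖fd f y‖ ^ 2)).sum +
            ENNReal.ofReal ‖er f b g z‖) :=
      lintegral_mono fun z => MD_point z (hD0 z)
    refine h1.trans ?_
    rw [lintegral_add_right _ hem.norm.ennreal_ofReal, hMCV f hn F K hFm hKm]
    gcongr
    · rw [← hEeq]
      exact lintegral_mono_set sdiff_subset
  -- second inequality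
  have hLW : ∫⁻ z in L, F z ≤ (∫⁻ z in W, F z) +
      ∑ i, (ENNReal.ofReal (2 * Real.pi * Real.log (t / s i)) +
        ENNReal.ofReal (2 * Real.pi * C * t)) := by
    have hsub : L ⊆ W ∪ ⋃ i, (ball (b i) t \ ball (b i) (s i)) := by
      intro z hz
      by_cases h : z ∈ ⋃ i, ball (b i) t
      · right
        rw [mem_iUnion] at h ⊢
        obtain ⟨i, hi⟩ := h
        exact ⟨i, hi, fun h' => hz.2 (mem_iUnion.mpr ⟨i, h'⟩)⟩
      · left
        exact ⟨hz.1, h⟩
    calc ∫⁻ z in L, F z ≤ ∫⁻ z in W ∪ ⋃ i, (ball (b i) t \ ball (b i) (s i)), F z :=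
          lintegral_mono_set hsub
      _ ≤ (∫⁻ z in W, F z) + ∫⁻ z in ⋃ i, (ball (b i) t \ ball (b i) (s i)), F z :=
          lintegral_union_le _ _ _
      _ ≤ (∫⁻ z in W, F z) + ∑' i, ∫⁻ z in ball (b i) t \ ball (b i) (s i), F z := by
          gcongr
          exact lintegral_iUnion_le _ _
      _ ≤ _ := by
          rw [tsum_fintype]
          gcongr with i _
          exact (MPS.MD_annB hMI0 hBm hC (hs0 i) (hst i) i (P1 i)).1
  -- third inequality
  have hKW : (∫⁻ z in W, F z) + ∑ _i : ZMod k, ENNReal.ofReal (2 * Real.pi * Real.log (t / r)) ≤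
      (∫⁻ z in K, F z) + ∑ _i : ZMod k, ENNReal.ofReal (2 * Real.pi * C * t) := by
    have hdis : Pairwise (Function.onFun Disjoint fun i => ball (b i) t \ ball (b i) r) := by
      intro i j hij
      exact (P2 i j hij).mono sdiff_subset sdiff_subset
    have hsub : W ∪ ⋃ i, (ball (b i) t \ ball (b i) r) ⊆ K := by
      intro z hz
      rcases hz with hz | hz
      · refine ⟨hz.1, fun h => hz.2 ?_⟩
        rw [mem_iUnion] at h ⊢
        obtain ⟨i, hi⟩ := h
        exact ⟨i, ball_subset_ball hrt hi⟩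
      · rw [mem_iUnion] at hz
        obtain ⟨i, hi1, hi2⟩ := hz
        refine ⟨P2' i hi1, fun h => ?_⟩
        rw [mem_iUnion] at h
        obtain ⟨j, hj⟩ := h
        by_cases hij : i = j
        · rw [hij] at hi2
          exact hi2 hj
        · exact (disjoint_left.mp (P2 i j hij) hi1) (ball_subset_ball hrt hj)
    have hdW : Disjoint W (⋃ i, (ball (b i) t \ ball (b i) r)) := by
      rw [disjoint_left]
      intro z hz h
      apply hz.2
      rw [mem_iUnion] at h ⊢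
      obtain ⟨i, hi⟩ := h
      exact ⟨i, hi.1⟩
    have h1 : (∫⁻ z in W, F z) + ∑ i, ∫⁻ z in ball (b i) t \ ball (b i) r, F z ≤
        ∫⁻ z in K, F z := by
      have h2 : (∫⁻ z in W, F z) + ∑ i, ∫⁻ z in ball (b i) t \ ball (b i) r, F z =
          ∫⁻ z in W ∪ ⋃ i, (ball (b i) t \ ball (b i) r), F z := by
        rw [lintegral_union (MeasurableSet.iUnion fun i => MPS.MD_ann_meas _ _ _) hdW,
          lintegral_iUnion (fun i => MPS.MD_ann_meas _ _ _) hdis, tsum_fintype]
      rw [h2]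
      exact lintegral_mono_set hsub
    calc (∫⁻ z in W, F z) + ∑ _i : ZMod k, ENNReal.ofReal (2 * Real.pi * Real.log (t / r))
        ≤ (∫⁻ z in W, F z) + ∑ i : ZMod k, ((∫⁻ z in ball (b i) t \ ball (b i) r, F z) +
            ENNReal.ofReal (2 * Real.pi * C * t)) := by
          gcongr with i _
          exact (MPS.MD_annB hMI0 hBm hC hr hrt i (P1 i)).2
      _ = ((∫⁻ z in W, F z) + ∑ i : ZMod k, ∫⁻ z in ball (b i) t \ ball (b i) r, F z) +
            ∑ _i : ZMod k, ENNReal.ofReal (2 * Real.pi * C * t) := by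
          rw [Finset.sum_add_distrib, add_assoc]
      _ ≤ _ := by gcongr
  -- finiteness
  have hKfin : ∫⁻ z in K, F z ≠ ⊤ := by
    have hb : ∀ z ∈ K, F z ≤ ENNReal.ofReal (∑ i, (1 / r ^ 2 + ‖g i‖ / r)) := by
      intro z hz
      apply ENNReal.ofReal_le_ofReal
      unfold BB
      refine (norm_sum_le _ _).trans (Finset.sum_le_sum fun i _ => ?_)
      have hri : r ≤ ‖z - b i‖ := by
        by_contra h
        apply hz.2
        rw [mem_iUnion]
        exact ⟨i, by rw [mem_ball, dist_eq_norm]; linarith⟩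
      refine (norm_add_le _ _).trans ?_
      rw [norm_div, norm_div, norm_pow, norm_one]
      gcongr
    refine ne_top_of_le_ne_top ?_ (setLIntegral_mono' hKm hb)
    rw [setLIntegral_const]
    refine ENNReal.mul_ne_top ENNReal.ofReal_ne_top ?_
    exact ((measure_mono sdiff_subset).trans_lt measure_ball_lt_top).ne
  -- logarithms
  have hlog : ∀ i, Real.log (t / s i) =
      Real.log (t / r) + (Real.log (1 + η) + Real.log ‖fd f (b i)‖) := by
    intro i
    have h1 : t / s i = (t / r) * ((1 + η) * ‖fd f (b i)‖) := by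
      have := (hfpos i).ne'
      simp only [hs]
      field_simp
    have h2 := (hfpos i).ne'
    rw [h1, Real.log_mul (by positivity) (by positivity), Real.log_mul (by positivity) h2]
  have hlogs0 : ∀ i, 0 ≤ Real.log (t / s i) := fun i =>
    Real.log_nonneg (by rw [le_div_iff₀ (hs0 i), one_mul]; exact hst i)
  have hlogr0 : 0 ≤ Real.log (t / r) :=
    Real.log_nonneg (by rw [le_div_iff₀ hr, one_mul]; exact hrt)
  have hrholog : Real.log ‖rho f b‖ = ∑ i, Real.log ‖fd f (b i)‖ := by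
    unfold rho
    rw [norm_prod, Real.log_prod fun i _ => (hfpos i).ne']
  have hcard : (Finset.univ : Finset (ZMod k)).card = k := by
    rw [Finset.card_univ, ZMod.card]
  have hpi := Real.pi_pos
  have hlogη : 0 < Real.log (1 + η) := Real.log_pos (by linarith)
  have hLam : 0 < Real.log ‖rho f b‖ := Real.log_pos hrho
  have he0 : 0 ≤ ∫ z in ball (0 : ℂ) R, ‖er f b g z‖ := integral_nonneg fun z => norm_nonneg _
  set a0 : ℝ := k * (2 * Real.pi * Real.log (t / r)) with ha0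
  set d : ℝ := k * (2 * Real.pi * C * t) with hd
  have hk0 : (0 : ℝ) ≤ k := Nat.cast_nonneg k
  have hd0 : 0 ≤ d := by positivity
  have ha00 : 0 ≤ a0 := by positivity
  have hS1 : ∑ _i : ZMod k, ENNReal.ofReal (2 * Real.pi * Real.log (t / r)) =
      ENNReal.ofReal a0 := by
    rw [← ENNReal.ofReal_sum_of_nonneg (fun i _ => by positivity), Finset.sum_const, hcard,
      nsmul_eq_mul]
  have hS2 : ∑ _i : ZMod k, ENNReal.ofReal (2 * Real.pi * C * t) = ENNReal.ofReal d := by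
    rw [← ENNReal.ofReal_sum_of_nonneg (fun i _ => by positivity), Finset.sum_const, hcard,
      nsmul_eq_mul]
  have hS3 : ∑ i, ENNReal.ofReal (2 * Real.pi * Real.log (t / s i)) =
      ENNReal.ofReal (a0 + 2 * Real.pi * (Real.log ‖rho f b‖ + k * Real.log (1 + η))) := by
    rw [← ENNReal.ofReal_sum_of_nonneg (fun i _ => by have := hlogs0 i; positivity)]
    congr 1
    simp_rw [hlog, mul_add, Finset.sum_add_distrib]
    rw [Finset.sum_const, Finset.sum_const, hcard, ← Finset.mul_sum, ← hrholog, nsmul_eq_mul,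
      nsmul_eq_mul, ha0]
    ring
  rw [Finset.sum_add_distrib, hS3, hS2] at hLW
  rw [hS1, hS2] at hKW
  set X := ∫⁻ z in K, ENNReal.ofReal (Df f b g z) with hXdef
  set IK := ∫⁻ z in K, F z with hIK
  set IL := ∫⁻ z in L, F z with hIL
  set IW := ∫⁻ z in W, F z with hIW
  set v : ℝ := 2 * Real.pi * (Real.log ‖rho f b‖ + k * Real.log (1 + η)) with hv
  have hv0 : 0 ≤ v := by positivity
  have hfinal : IK + (X + ENNReal.ofReal a0) ≤
      IK + (ENNReal.ofReal a0 + ENNReal.ofReal (v + 4 * Real.pi * k * C * t +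
        ∫ z in ball (0 : ℂ) R, ‖er f b g z‖)) := by
    calc IK + (X + ENNReal.ofReal a0) = (X + IK) + ENNReal.ofReal a0 := by ring
      _ ≤ (IL + E) + ENNReal.ofReal a0 := by gcongr
      _ ≤ ((IW + (ENNReal.ofReal (a0 + v) + ENNReal.ofReal d)) + E) + ENNReal.ofReal a0 := by
          gcongr
      _ = (IW + ENNReal.ofReal a0) + (ENNReal.ofReal (a0 + v) + ENNReal.ofReal d + E) := by ring
      _ ≤ (IK + ENNReal.ofReal d) + (ENNReal.ofReal (a0 + v) + ENNReal.ofReal d + E) := by gcongr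
      _ = IK + (ENNReal.ofReal a0 + (ENNReal.ofReal v + (ENNReal.ofReal d + ENNReal.ofReal d) + E)) := by
          rw [ENNReal.ofReal_add ha00 hv0]
          ring
      _ = _ := by
          rw [hE, ← ENNReal.ofReal_add hd0 hd0, ← ENNReal.ofReal_add hv0 (by positivity),
            ← ENNReal.ofReal_add (by positivity) he0]
          congr 3
          rw [hd]
          ring
  have h4 := ENNReal.le_of_add_le_add_left hKfin hfinal
  rw [add_comm X] at h4
  exact ENNReal.le_of_add_le_add_left ENNReal.ofReal_ne_top h4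

/-- MD. -/
theorem MD_aux (hMI0 : MPS.MI_stmt) (hMI : MI_stmt) (hMCV : MCV_stmt)
    {f : Polynomial ℂ} {b g : ZMod k → ℂ} {R : ℝ} (hn : 1 ≤ f.natDegree) (hc : IsCyc f b)
    (hbR : ∀ i, ‖b i‖ < R)
    (hinv : ∀ y : ℂ, ‖f.eval y‖ < R → ‖y‖ < R) (hint : IntegrableOn (er f b g) (ball 0 R))
    (hrho : 1 < ‖rho f b‖) {δ : ℝ} (hδ : 0 < δ) :
    ∀ᶠ r in 𝓝[>] (0 : ℝ),
    ∫⁻ z in ball (0 : ℂ) R \ ⋃ i, ball (b i) r, ENNReal.ofReal (Df f b g z) ≤
      ENNReal.ofReal (2 * Real.pi * Real.log ‖rho f b‖ +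
        (∫ z in ball (0 : ℂ) R, ‖er f b g z‖) + δ) := by
  obtain ⟨C, hC, hloc⟩ := MPS.MD_loc b g hc.inj
  have hpi := Real.pi_pos
  have hk0 : (0 : ℝ) ≤ k := Nat.cast_nonneg k
  -- choice of η
  obtain ⟨η, hη, hη2⟩ : ∃ η : ℝ, 0 < η ∧ 2 * Real.pi * (k * Real.log (1 + η)) ≤ δ / 2 := by
    refine ⟨δ / (4 * Real.pi * (k + 1)), by positivity, ?_⟩
    have h1 : Real.log (1 + δ / (4 * Real.pi * (k + 1))) ≤ δ / (4 * Real.pi * (k + 1)) := by
      have := Real.log_le_sub_one_of_pos (show 0 < 1 + δ / (4 * Real.pi * (k + 1)) by positivity)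
      linarith
    have h0 : 0 ≤ Real.log (1 + δ / (4 * Real.pi * (k + 1))) :=
      Real.log_nonneg (by linarith [show 0 < δ / (4 * Real.pi * (k + 1)) by positivity])
    calc 2 * Real.pi * (k * Real.log (1 + δ / (4 * Real.pi * (k + 1))))
        ≤ 2 * Real.pi * ((k + 1) * (δ / (4 * Real.pi * (k + 1)))) := by
          gcongr
          linarith
      _ = δ / 2 := by field_simp; ring
  set A : ℝ := 1 + ∑ i, 1 / ‖fd f (b i)‖ with hA
  have hfpos : ∀ i, 0 < ‖fd f (b i)‖ := fun i => norm_pos_iff.mpr (hc.ne0 i)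
  have hsum0 : 0 ≤ ∑ i, 1 / ‖fd f (b i)‖ := Finset.sum_nonneg fun i _ => by
    have := hfpos i; positivity
  have hA1 : 1 ≤ A := by linarith
  have hA0 : 0 < A := by linarith
  have htend : Tendsto (fun r : ℝ => A * r) (𝓝[>] 0) (𝓝[>] 0) := by
    refine tendsto_nhdsWithin_iff.mpr ⟨?_, ?_⟩
    · have : Tendsto (fun r : ℝ => A * r) (𝓝 0) (𝓝 (A * 0)) := tendsto_const_nhds.mul tendsto_id
      rw [mul_zero] at this
      exact this.mono_left nhdsWithin_le_nhds
    · filter_upwards [self_mem_nhdsWithin] with r hr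
      exact mul_pos hA0 hr
  have hsmall : ∀ᶠ r in 𝓝[>] (0 : ℝ), 4 * Real.pi * k * C * (A * r) < δ / 2 := by
    have : Tendsto (fun r : ℝ => 4 * Real.pi * k * C * (A * r)) (𝓝[>] 0) (𝓝 0) := by
      have h1 : Tendsto (fun r : ℝ => 4 * Real.pi * k * C * (A * r)) (𝓝 0)
          (𝓝 (4 * Real.pi * k * C * (A * 0))) :=
        tendsto_const_nhds.mul (tendsto_const_nhds.mul tendsto_id)
      rw [mul_zero, mul_zero] at h1
      exact h1.mono_left nhdsWithin_le_nhds
    exact this.eventually (gt_mem_nhds (by positivity))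
  filter_upwards [self_mem_nhdsWithin, htend.eventually hloc, htend.eventually (MPS.MD_disj b hc.inj),
    htend.eventually (MPS.MD_in b hbR), htend.eventually (MD_der hc hη), hsmall]
    with r hr h1 h2 h3 h4 h5
  have hr0 : 0 < r := hr
  refine (MD_core hMI0 hMI hMCV hn hc hinv hint hrho hη hC hr0 (t := A * r) ?_ ?_ h1 h2 h3
    h4).trans ?_
  · nlinarith
  · intro i
    have hf := hfpos i
    have hle : 1 / ‖fd f (b i)‖ ≤ A := by
      have := Finset.single_le_sum (f := fun i => 1 / ‖fd f (b i)‖)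
        (fun i _ => by have := hfpos i; positivity) (Finset.mem_univ i)
      linarith
    calc r / ((1 + η) * ‖fd f (b i)‖) ≤ r / (1 * ‖fd f (b i)‖) := by
          gcongr
          linarith
      _ = 1 / ‖fd f (b i)‖ * r := by rw [one_mul]; ring
      _ ≤ A * r := by gcongr
  · apply ENNReal.ofReal_le_ofReal
    have e1 : 2 * Real.pi * (Real.log ‖rho f b‖ + k * Real.log (1 + η)) =
      2 * Real.pi * Real.log ‖rho f b‖ + 2 * Real.pi * (k * Real.log (1 + η)) := by ring
    rw [e1]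
    linarith


end

/-- MD: total cancellation. -/
theorem MD (hMI0 : MPS.MI_stmt) (hMI : MI_stmt) (hMCV : MCV_stmt) (hERI : ERI_stmt) : MD_stmt := by
  intro n k _ f b g R hn hf hc hrho hR hbR hinv
  have hrho1 : rho f b ≠ 1 := by
    intro h
    rw [h, norm_one] at hrho
    exact lt_irrefl _ hrho
  have hint := (hERI n k f b g R hn hf hc hrho1 hR hinv).1
  refine ge_of_tendsto (x := 𝓝[>] (0 : ℝ)) (f := fun δ : ℝ =>
    ENNReal.ofReal (2 * Real.pi * Real.log ‖rho f b‖ +
      (∫ z in ball (0 : ℂ) R, ‖er f b g z‖) + δ)) ?_ ?_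
  · have h1 : Tendsto (fun δ : ℝ => 2 * Real.pi * Real.log ‖rho f b‖ +
        (∫ z in ball (0 : ℂ) R, ‖er f b g z‖) + δ) (𝓝 0) (𝓝 (2 * Real.pi * Real.log ‖rho f b‖ +
        (∫ z in ball (0 : ℂ) R, ‖er f b g z‖) + 0)) := tendsto_const_nhds.add tendsto_id
    rw [add_zero] at h1
    exact (ENNReal.continuous_ofReal.tendsto _).comp (h1.mono_left nhdsWithin_le_nhds)
  · filter_upwards [self_mem_nhdsWithin] with δ hδ
    exact MPS.MD_lim b R _ (MD_aux hMI0 hMI hMCV (by omega) hc hbR hinv hint hrho hδ)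

end PPS
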