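import Pool.Agent.helper57.PP.Spec

set_option autoImplicit false

namespace Pool.Agent.helper57.PP

open Finset

theorem PH (h1 : RM_stmt) (h2 : QOUT_stmt) : PH_stmt := by
  intro W _ T R a z bs ts Bf C hD hS hBf hts
  induction hn : R.card using Nat.strong_induction_on generalizing R C with
  | _ n ih =>
    subst hn
    by_cases hex : ∃ x ∈ C, x ∉ pth a bs z ∧ ∀ b ∈ Bf, {x, b} ∉ edges T
    · obtain ⟨x, hxC, hxp, hxb⟩ := hex
      obtain ⟨A, y0, v, yr, B, mid, hC, hvp, hvb, hnd, hfan, hmid, hS'⟩ :=
        h1 W T R a z bs ts Bf C x hD hS hBf hxC hxp hxb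
      have hnew : ∀ t ∈ ts, t ∉ A ++ y0 :: (mid ++ yr :: B) := by
        intro t ht hmem
        by_cases htm : t ∈ mid
        · have htC := hmid t htm
          apply h2 W T R a z bs ts C hD hS t ht htC
          have htp : t ∈ pth y0 mid yr := by
            unfold pth
            simp [htm]
          obtain ⟨e, he, hte⟩ := exists_pe_of_mem htp
          have h3 : insert v e ∈ cof R {v} := by
            rw [hfan]
            unfold fan
            rw [mem_image]
            exact ⟨e, he, rfl⟩
          exact mem_vs.2 ⟨insert v e, (mem_cof.1 h3).1, mem_insert_of_mem hte⟩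
        · apply hts t ht
          rw [hC]
          simp only [List.mem_append, List.mem_cons] at hmem ⊢
          tauto
      have hlt : (R \ cof R {v}).card < R.card := by
        apply Finset.card_lt_card
        refine ⟨sdiff_subset, fun hsub => ?_⟩
        have hy : y0 ∈ pth y0 mid yr := by
          unfold pth
          simp
        obtain ⟨e, he, -⟩ := exists_pe_of_mem hy
        have h3 : insert v e ∈ cof R {v} := by
          rw [hfan]
          unfold fan
          rw [mem_image]
          exact ⟨e, he, rfl⟩
        exact (mem_sdiff.1 (hsub (cof_subset _ _ h3))).2 h3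
      obtain ⟨σ, R', C', hSw, hσ, hC', hts'⟩ := ih _ hlt (R \ cof R {v})
        (A ++ y0 :: (mid ++ yr :: B)) hS' hnew rfl
      refine ⟨⟨v, y0, mid, yr⟩ :: σ, R', C', ?_, ?_, hC', hts'⟩
      · rw [hC]
        refine Sw.cons R A y0 v yr B mid σ R' C' (hC ▸ hS) hvp hnd hfan ?_ hSw
        intro y hy
        rw [← hC]
        exact hmid y hy
      · intro s hs
        rw [List.mem_cons] at hs
        rcases hs with rfl | hs
        · refine ⟨hvb, fun h => hts _ h ?_, fun h => hts _ h ?_⟩
          · rw [hC]; simp
          · rw [hC]; simp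
        · exact hσ s hs
    · push Not at hex
      exact ⟨[], R, C, Sw.nil R C hS, by simp, hex, hts⟩

end Pool.Agent.helper57.PP
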