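import Pool.Agent.helper57.PP.Spec

set_option autoImplicit false

namespace Pool.Agent.helper57.PP

open Finset

theorem SEP1 : SEP1_stmt := by
  intro W _ T R a z bs ts A1 x M y B hD hS hM hxyR
  have hnd := hS.nd
  have hnd2 : (x :: (M ++ [y])).Nodup := by
    simp only [List.nodup_append, List.nodup_cons, List.mem_append, List.mem_cons] at hnd ⊢
    grind
  have hxy : x ≠ y := edges_ne hxyR
  have hxM : x ∉ M ∧ y ∉ M ∧ y ∉ A1 ∧ x ∉ B := by
    simp only [List.nodup_append, List.nodup_cons, List.mem_append, List.mem_cons] at hnd
    grind
  -- the chord is not an edge of the path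
  have hnot : ({x, y} : Finset W) ∉ pe (A1 ++ x :: (M ++ y :: B)) := by
    intro h
    rw [pe_append, mem_union] at h
    rcases h with h | h
    · have := mem_of_mem_pe h (show y ∈ ({x, y} : Finset W) by simp)
      simp only [List.mem_append, List.mem_singleton] at this
      rcases this with h1 | h1
      · exact hxM.2.2.1 h1
      · exact hxy h1.symm
    · cases M with
      | nil => exact hM rfl
      | cons c M =>
        simp only [List.cons_append, pe_cons_cons, mem_insert] at h
        rcases h with h | h
        · have h1 : y ∈ ({x, c} : Finset W) := by rw [← h]; simp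
          simp only [mem_insert, mem_singleton] at h1
          rcases h1 with h1 | h1
          · exact hxy h1.symm
          · exact hxM.2.1 (by simp [h1])
        · have h1 := mem_of_mem_pe h (show x ∈ ({x, y} : Finset W) by simp)
          have h2 := hxM.1
          have h3 := hxM.2.2.2
          simp only [List.mem_cons, List.mem_append] at h1 h2
          tauto
  refine ⟨hnot, ?_⟩
  have hsub : pe (x :: (M ++ [y])) ⊆ pe (A1 ++ x :: (M ++ y :: B)) := by
    intro e he
    rw [pe_append, mem_union]
    right
    have h1 : x :: (M ++ y :: B) = (x :: M) ++ y :: B := by simp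
    rw [h1, pe_append, mem_union]
    left
    simpa using he
  obtain ⟨A, hAT, hbA⟩ := hD.J (insert {x, y} (pe (x :: (M ++ [y])))) (by
    intro e he
    rw [mem_insert] at he
    rcases he with rfl | he
    · exact edges_mono hS.sub hxyR
    · exact hS.pe_sub (hsub he)) (even_cycle hnd2 hM)
  have hclaim : bd (A \ R) ⊆ pe (A1 ++ x :: (M ++ y :: B)) := by
    intro e he
    by_contra hne
    obtain ⟨hc, hodd⟩ := mem_bd.1 he
    rw [cof_sdiff] at hodd
    have h2 := hD.le2 e hc
    have hCA : cof A e ⊆ cof T e := cof_mono hAT e
    have hCR : cof R e ⊆ cof T e := cof_mono hS.sub e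
    have hun : (cof A e ∪ cof R e).card ≤ (cof T e).card := card_le_card (union_subset hCA hCR)
    have hsd : (cof A e \ cof R e).card + (cof R e).card = (cof A e ∪ cof R e).card := by
      rw [Finset.card_sdiff_add_card]
    have hle : (cof A e \ cof R e).card ≤ (cof A e).card := card_le_card sdiff_subset
    have hAle : (cof A e).card ≤ (cof T e).card := card_le_card hCA
    have key : Odd (cof R e).card ∧ (cof T e).card = 2 := by
      by_cases hexy : e = {x, y}
      · have h3 : Odd (cof A e).card := by
          have : e ∈ bd A := by rw [hbA, hexy]; exact mem_insert_self _ _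
          exact (mem_bd.1 this).2
        have h4 : 0 < (cof R e).card := by
          rw [Finset.card_pos, ← edges_iff_cof_nonempty hc, hexy]
          exact hxyR
        rw [Nat.odd_iff] at h3 hodd ⊢
        omega
      · have h3 : ¬ Odd (cof A e).card := by
          intro h3
          have : e ∈ bd A := mem_bd.2 ⟨hc, h3⟩
          rw [hbA, mem_insert] at this
          rcases this with h | h
          · exact hexy h
          · exact hne (hsub h)
        rw [Nat.odd_iff] at h3 hodd ⊢
        have h5 : (cof A e).card = 2 := by omega
        have h6 : cof A e = cof T e := eq_of_subset_of_card_le hCA (by omega)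
        have h7 : cof R e ⊆ cof A e := by rw [h6]; exact hCR
        have h8 := Finset.card_sdiff_add_card_eq_card h7
        omega
    have h3 : e ∈ bd R := mem_bd.2 ⟨hc, key.1⟩
    rw [hS.bdR, mem_symmDiff] at h3
    have h4 : e ∈ pe (pth a bs z) := by tauto
    have h5 : e ∈ bd T := by
      rw [hD.bdT, mem_union]
      exact Or.inl h4
    have h6 := (mem_bd.1 h5).2
    rw [key.2] at h6
    revert h6
    decide
  have h0 : bd (A \ R) = ∅ := even_path hnd hclaim
    (evenSet_bd fun t ht => hD.card3 t (hAT (mem_sdiff.1 ht).1))
  have h1 : A \ R = ∅ := hD.J0 _ (sdiff_subset.trans hAT) h0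
  exact ⟨A, sdiff_eq_empty_iff_subset.1 h1, hbA⟩

end Pool.Agent.helper57.PP
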