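import Pool.Agent.helper36.PP.SpecM

set_option autoImplicit false

open Complex Metric Set Filter Topology MeasureTheory MPS MQ Pool.Agent.helper98.ILF

noncomputable section

namespace PPS

theorem INF_growth (f : Polynomial ℂ) (hf : 1 ≤ f.natDegree) (K : ℝ) :
    ∃ R : ℝ, ∀ z : ℂ, R < ‖z‖ → K ≤ ‖f.eval z‖ := by
  have hdeg : 0 < f.degree := Polynomial.natDegree_pos_iff_degree_pos.1 (by omega)
  have h := Polynomial.tendsto_norm_atTop f hdeg (l := Bornology.cobounded ℂ) (z := fun z => z)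
    tendsto_norm_cobounded_atTop
  have h1 := h.eventually_ge_atTop K
  rw [← comap_norm_atTop, eventually_comap] at h1
  obtain ⟨R, hR⟩ := eventually_atTop.1 h1
  exact ⟨R, fun z hz => hR ‖z‖ hz.le z rfl⟩

theorem INF : INF_stmt := by
  intro f A B a κ hf hB hκ hfe
  have hg : 1 ≤ f.divX.natDegree := by
    rw [Polynomial.natDegree_divX_eq_natDegree_tsub_one]
    omega
  have hd : 1 ≤ f.derivative.natDegree := by
    rw [Polynomial.natDegree_derivative]
    omega
  obtain ⟨R1, hR1⟩ := INF_growth f.divX hg 3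
  obtain ⟨R2, hR2⟩ := INF_growth f.derivative hd 2
  set R : ℝ := max (max R1 R2) (max ‖f.coeff 0‖ (max A 0)) with hR
  have h1 : R1 ≤ R := (le_max_left _ _).trans (le_max_left _ _)
  have h2 : R2 ≤ R := (le_max_right _ _).trans (le_max_left _ _)
  have h3 : ‖f.coeff 0‖ ≤ R := (le_max_left _ _).trans (le_max_right _ _)
  have h4 : A ≤ R := (le_max_left _ _).trans ((le_max_right _ _).trans (le_max_right _ _))
  have h5 : 0 ≤ R := (le_max_right _ _).trans ((le_max_right _ _).trans (le_max_right _ _))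
  have hf2 : ∀ z : ℂ, R < ‖z‖ → 2 * ‖z‖ ≤ ‖f.eval z‖ := by
    intro z hz
    have e : f.eval z = f.divX.eval z * z + f.coeff 0 := by
      conv_lhs => rw [← Polynomial.divX_mul_X_add f]
      simp
    have e1 : 3 * ‖z‖ ≤ ‖f.divX.eval z * z‖ := by
      rw [norm_mul]
      exact mul_le_mul_of_nonneg_right (hR1 z (by linarith)) (norm_nonneg _)
    have e2 := norm_sub_le (f.eval z) (f.coeff 0)
    have e3 : f.eval z - f.coeff 0 = f.divX.eval z * z := by rw [e]; ring
    rw [e3] at e2
    linarith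
  have key : ∀ m : ℕ, ∀ z : ℂ, R < ‖z‖ → 2 ^ m * ‖a z‖ ≤ B := by
    intro m
    induction m with
    | zero => intro z _; simpa using hB z
    | succ m ih =>
      intro z hz
      have g1 := hf2 z hz
      have g2 : R < ‖f.eval z‖ := by linarith
      have g3 : κ (f.eval z) = 0 := hκ _ (by linarith)
      have g4 := hfe z
      rw [g3, add_zero] at g4
      have g5 : 2 ≤ ‖fd f z‖ := hR2 z (by linarith)
      have g6 : 2 * ‖a z‖ ≤ ‖a (f.eval z)‖ := by
        rw [← g4, norm_mul]
        exact mul_le_mul_of_nonneg_right g5 (norm_nonneg _)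
      have g7 := ih _ g2
      have g8 : (2 : ℝ) ^ (m + 1) * ‖a z‖ = 2 ^ m * (2 * ‖a z‖) := by ring
      rw [g8]
      exact (mul_le_mul_of_nonneg_left g6 (by positivity)).trans g7
  refine ⟨R, fun z hz => ?_⟩
  by_contra hne
  have hpos : 0 < ‖a z‖ := norm_pos_iff.2 hne
  obtain ⟨m, hm⟩ := pow_unbounded_of_one_lt (B / ‖a z‖) (one_lt_two : (1 : ℝ) < 2)
  have := key m z hz
  rw [div_lt_iff₀ hpos] at hm
  linarith

end PPS
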